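import Pool.Agent.W469.NUM.Lab
import Pool.Agent.W797.NUM.Mk
import Pool.Agent.W885.NUM.Clock
import Pool.Agent.W270.NUM.Fix
import Pool.Agent.W54.NUM.Red

/-!
# The loop lemma for majority operations on infinite relations

If a binary relation on a possibly infinite set contains a finite smooth digraph of algebraic length
one and is compatible with a ternary near-unanimity (majority) operation then it has a loop.
-/

set_option autoImplicit false

namespace Pool.Agent.Results.MP_70593a_al.MajorityLoop

open Pool.Agent.W434.NUM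

theorem result (A : Type) (R : A → A → Prop) (S : Finset (A × A))
    -- `S` is the finite edge set of a digraph contained in `R`
    (hS : ∀ p ∈ S, R p.1 p.2)
    -- the digraph is smooth
    (hsm : ∀ p ∈ S, (∃ q ∈ S, q.2 = p.1) ∧ (∃ q ∈ S, q.1 = p.2))
    -- it has a closed oriented walk of algebraic length `1`
    (hwalk : ∃ (k : ℕ) (v : ℕ → A) (e : ℕ → ℤ), v k = v 0 ∧
      (∀ i < k, (e i = 1 ∧ (v i, v (i + 1)) ∈ S) ∨ (e i = -1 ∧ (v (i + 1), v i) ∈ S)) ∧
      ∑ i ∈ Finset.range k, e i = 1)
    -- a majority operation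
    (m : A → A → A → A) (hm : ∀ x y, m x x y = x ∧ m x y x = x ∧ m y x x = x)
    -- compatible with `R`
    (hc : ∀ x x' y y' z z', R x x' → R y y' → R z z' → R (m x y z) (m x' y' z')) :
    ∃ a, R a a := by
  have hsca : S_sca := Pool.Agent.W469.NUM.sca Pool.Agent.W469.NUM.lab
    (Pool.Agent.W885.NUM.clock Pool.Agent.W797.NUM.mk)
  have hred : S_red := Pool.Agent.W54.NUM.red (Pool.Agent.W270.NUM.fix Pool.Agent.W469.NUM.hel)
  refine maj_of hred hsca A R S hS hsm hwalk (fun x => m (x 0) (x 1) (x 2)) ?_ ?_
  · intro x y i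
    fin_cases i
    · simpa [Function.update] using (hm x y).2.2
    · simpa [Function.update] using (hm x y).2.1
    · simpa [Function.update] using (hm x y).1
  · intro x y h
    exact hc _ _ _ _ _ _ (h 0) (h 1) (h 2)

end Pool.Agent.Results.MP_70593a_al.MajorityLoop
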